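import Mathlib
import Pool.Agent.Y298.LC.Stm

/-! S_BRANCH (project LC, helper298): pulling back along the critical orbit. -/

set_option autoImplicit false

open Set Filter Topology Metric Complex

namespace Pool.Agent.Y891.LC.Br

open Pool.Agent.H712R2 (P fc)
open Pool.Agent.H713R2 (IsExteriorMap)
open Pool.Agent.H713R2.AR (green)
open N62a1eb23 (multibrotSet)
open Pool.Agent.Y298.LC

theorem norm_ex (σ t : ℝ) : ‖ex σ t‖ = Real.exp σ := by
  unfold ex
  rw [Complex.norm_exp]
  congr 1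
  simp

theorem log_ex (σ t : ℝ) : Real.log ‖ex σ t‖ = σ := by
  rw [norm_ex, Real.log_exp]

theorem ex_pow (d : ℕ) (σ t : ℝ) : ex σ t ^ d = ex (d * σ) (d * t) := by
  unfold ex
  rw [← Complex.exp_nat_mul]
  congr 1
  push_cast
  ring

theorem ex_int (σ t : ℝ) (j : ℤ) : ex σ (t + j) = ex σ t := by
  unfold ex
  rw [Complex.exp_eq_exp_iff_exists_int]
  exact ⟨j, by push_cast; ring⟩

theorem ex_eq {σ σ' t t' : ℝ} (h : ex σ t = ex σ' t') : ∃ j : ℤ, t = t' + j := by
  unfold ex at h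
  rw [Complex.exp_eq_exp_iff_exists_int] at h
  obtain ⟨n, hn⟩ := h
  refine ⟨n, ?_⟩
  have h1 := congrArg Complex.im hn
  have hpi := Real.pi_pos
  simp at h1
  have h2 : 2 * Real.pi * t = 2 * Real.pi * (t' + n) := by linarith
  exact mul_left_cancel₀ (by positivity) h2

theorem iter_psi {d : ℕ} {Ψ : ℂ → ℂ → ℂ} (hd : 2 ≤ d) (hΨ : Bott d Ψ) (c : ℂ)
    (h0 : 0 ≤ green d c 0) (k : ℕ) (σ t : ℝ)
    (hσ : green d c 0 < σ) :
    (fc d c)^[k] (Ψ c (ex σ t)) = Ψ c (ex ((d : ℝ) ^ k * σ) ((d : ℝ) ^ k * t)) := by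
  induction k with
  | zero => simp
  | succ k ih =>
    have hd1 : (1 : ℝ) ≤ d := by exact_mod_cast (by omega : 1 ≤ d)
    have hk : (1 : ℝ) ≤ (d : ℝ) ^ k := one_le_pow₀ hd1
    rw [Function.iterate_succ_apply', ih, ← hΨ.conj c, ex_pow]
    · congr 2 <;> ring
    · show green d c 0 < Real.log ‖ex _ _‖
      rw [log_ex]
      nlinarith

theorem branch (_ : S_CG) (hB : S_BOT2) (hS : S_SLIT) : S_BRANCH := by
  intro d Ψ ψ s θ bm bp a s₀ tm n m W hd hΨ hψ hs hWo hW1 hW2 hW3 hnm hms htm hmθ hab hang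
  set c : ℂ := ψ (ex s θ) with hc
  have hd2 : (2 : ℝ) ≤ d := by exact_mod_cast hd
  have hd0 : (0 : ℝ) < d := by linarith
  have hnorm : 1 < ‖ex s θ‖ := by
    rw [norm_ex]
    exact Real.one_lt_exp_iff.2 hs
  obtain ⟨hg, hcΨ⟩ := hB d Ψ ψ hd hΨ hψ (ex s θ) hnorm
  rw [← hc, log_ex] at hg
  rw [← hc] at hcΨ
  have hg0 : 0 ≤ green d c 0 := by rw [hg]; positivity
  have hsd : s / d < s := by
    rw [div_lt_iff₀ hd0]
    nlinarith
  obtain ⟨jm, hjm⟩ := hmθ
  have hpk : ∀ k : ℕ, (0 : ℝ) < (d : ℝ) ^ k := fun k => by positivity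
  have hpk1 : ∀ k : ℕ, (1 : ℝ) ≤ (d : ℝ) ^ k := fun k => one_le_pow₀ (by linarith)
  have htt : ∀ t ∈ Ioo bm bp, |t - tm| < a := by
    intro t ht
    rw [abs_lt]
    obtain ⟨h1, h2⟩ := ht
    obtain ⟨h3, h4⟩ := htm
    constructor <;> linarith
  -- the induction
  have key : ∀ k : ℕ, k ≤ m - n → ∃ G : ℂ → ℂ, DifferentiableOn ℂ G W ∧
      (∀ z ∈ W, (fc d c)^[k] (G z) = z) ∧
      ∀ σ t : ℝ, s / d * (d : ℝ) ^ k < σ → σ < s₀ → t ∈ Ioo bm bp →
        G (Ψ c (ex σ t)) =
          Ψ c (ex (σ / (d : ℝ) ^ k) ((d : ℝ) ^ (m - k) * θ + (t - tm) / (d : ℝ) ^ k)) := by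
    intro k
    induction k with
    | zero =>
      intro _
      refine ⟨id, differentiableOn_id, fun z _ => rfl, fun σ t _ _ _ => ?_⟩
      simp only [id, pow_zero, div_one, Nat.sub_zero]
      congr 1
      rw [show (d : ℝ) ^ m * θ + (t - tm) = t + jm by rw [hjm]; ring, ex_int]
    | succ k ih =>
      intro hk
      obtain ⟨G, hGd, hGi, hGf⟩ := ih (by omega)
      have hang' : ∀ j : ℤ, a / (d : ℝ) ^ k ≤ |(d : ℝ) ^ (m - k) * θ - θ - j| := by
        intro j
        have := hang (m - k) (by omega) (by omega) j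
        rwa [show m - (m - k) = k by omega] at this
      -- `G` maps `W` to the slit plane
      have hslit : ∀ ζ ∈ W, G ζ ∈ Slit Ψ c s θ := by
        intro ζ hζ σ hσ heq
        have hσd : green d c 0 < σ := by rw [hg]; linarith
        have h1 : ζ = Ψ c (ex ((d : ℝ) ^ k * σ) ((d : ℝ) ^ k * θ)) := by
          rw [← iter_psi hd hΨ c hg0 k σ θ hσd, ← heq, hGi ζ hζ]
        have hσk : σ ≤ (d : ℝ) ^ k * σ := by
          have := hpk1 k
          have h3 : 0 < σ := by linarith
          nlinarith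
        have hdom : ex ((d : ℝ) ^ k * σ) ((d : ℝ) ^ k * θ) ∈ Dom (green d c 0) := by
          show green d c 0 < Real.log ‖_‖
          rw [log_ex]
          linarith
        have h2 : (d : ℝ) ^ k * σ < s₀ := by
          have h3 := hW1 ζ hζ
          rw [h1, hΨ.pot c _ hdom, log_ex] at h3
          exact h3
        obtain ⟨j, hj⟩ := hW2 ((d : ℝ) ^ k * σ) ((d : ℝ) ^ k * θ) (by linarith)
          (by rw [← h1]; exact hζ)
        have h4 := hGf ((d : ℝ) ^ k * σ) ((d : ℝ) ^ k * θ + j)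
          (by
            have := hpk k
            nlinarith) h2 hj
        rw [ex_int, ← h1, heq, mul_div_cancel_left₀ _ (hpk k).ne'] at h4
        have h5 := hΨ.inj c (by
            show green d c 0 < Real.log ‖_‖
            rw [log_ex]
            exact hσd) (by
            show green d c 0 < Real.log ‖_‖
            rw [log_ex]
            exact hσd) h4
        obtain ⟨j', hj'⟩ := ex_eq h5
        have h6 := hang' (-j')
        have h7 : (d : ℝ) ^ (m - k) * θ - θ - ((-j' : ℤ) : ℝ) =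
            -(((d : ℝ) ^ k * θ + j - tm) / (d : ℝ) ^ k) := by
          push_cast
          linarith
        rw [h7, abs_neg, abs_div, abs_of_pos (hpk k)] at h6
        have h8 := htt _ hj
        have h9 := (div_le_div_iff_of_pos_right (hpk k)).1 h6
        linarith
      set j : ℤ := ⌊(d : ℝ) ^ (m - k) * θ - θ⌋ with hj
      have hj1 : (j : ℝ) ≤ (d : ℝ) ^ (m - k) * θ - θ := Int.floor_le _
      have hj2 : (d : ℝ) ^ (m - k) * θ - θ < j + 1 := Int.lt_floor_add_one _
      have hj3 : a / (d : ℝ) ^ k ≤ (d : ℝ) ^ (m - k) * θ - θ - j := by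
        have := hang' j
        rwa [abs_of_nonneg (by linarith)] at this
      have hj4 : a / (d : ℝ) ^ k ≤ θ + j + 1 - (d : ℝ) ^ (m - k) * θ := by
        have := hang' (j + 1)
        push_cast at this
        rw [abs_of_neg (by linarith)] at this
        linarith
      obtain ⟨hSo, g, hgd, hgi, hgf⟩ := hS d Ψ ψ s θ ((θ + j) / d) hd hΨ hψ hs
        ⟨j, by field_simp⟩
      rw [← hc] at hSo hgd hgi hgf
      refine ⟨g ∘ G, hgd.comp hGd hslit, ?_, ?_⟩
      · intro z hz
        rw [Function.iterate_succ_apply, Function.comp_apply, hgi _ (hslit z hz), hGi z hz]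
      · intro σ t hσ1 hσ2 ht
        have e0 : s / d * (d : ℝ) ^ k < σ := by
          have h1 : s / d * (d : ℝ) ^ k ≤ s / d * (d : ℝ) ^ (k + 1) := by
            apply mul_le_mul_of_nonneg_left _ (by positivity)
            exact pow_le_pow_right₀ (by linarith) (by omega)
          linarith
        rw [Function.comp_apply, hGf σ t e0 hσ2 ht]
        have ht2 := abs_lt.1 (htt t ht)
        have ht3 : -(a / (d : ℝ) ^ k) < (t - tm) / (d : ℝ) ^ k := by
          rw [← neg_div]
          exact (div_lt_div_iff_of_pos_right (hpk k)).2 ht2.1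
        have ht4 : (t - tm) / (d : ℝ) ^ k < a / (d : ℝ) ^ k :=
          (div_lt_div_iff_of_pos_right (hpk k)).2 ht2.2
        set y : ℝ := (d : ℝ) ^ (m - k) * θ + (t - tm) / (d : ℝ) ^ k with hy
        have h1 := (hgf (σ / (d : ℝ) ^ (k + 1)) (y / d)
          (by
            rw [lt_div_iff₀ (hpk (k + 1))]
            exact hσ1)
          (by
            constructor
            · exact (div_lt_div_iff_of_pos_right hd0).2 (by linarith)
            · rw [← add_div]
              exact (div_lt_div_iff_of_pos_right hd0).2 (by linarith))).2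
        have e1 : (d : ℝ) * (σ / (d : ℝ) ^ (k + 1)) = σ / (d : ℝ) ^ k := by
          rw [pow_succ]
          field_simp
        have e2 : (d : ℝ) * (y / d) = y := by field_simp
        have e3 : y / d = (d : ℝ) ^ (m - (k + 1)) * θ + (t - tm) / (d : ℝ) ^ (k + 1) := by
          rw [hy, show m - k = (m - (k + 1)) + 1 by omega, pow_succ, pow_succ]
          field_simp
        rw [e1, e2] at h1
        rw [h1, e3]
  obtain ⟨G, hGd, hGi, hGf⟩ := key (m - n) le_rfl
  refine ⟨G, hGd, hGi, ?_⟩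
  have hgs : green d c 0 < s := by rw [hg]; exact hsd
  have h1 : P d (m + 1) c = Ψ c (ex ((d : ℝ) ^ m * s) tm) := by
    have h0 : (fc d c)^[m] c = (fc d c)^[m] (Ψ c (ex s θ)) := by rw [hcΨ]
    rw [← Pool.Agent.H712R2.iter_c hd m c, h0, iter_psi hd hΨ c hg0 m s θ hgs, hjm, ex_int]
  have h2 : P d (n + 1) c = Ψ c (ex ((d : ℝ) ^ n * s) ((d : ℝ) ^ n * θ)) := by
    have h0 : (fc d c)^[n] c = (fc d c)^[n] (Ψ c (ex s θ)) := by rw [hcΨ]
    rw [← Pool.Agent.H712R2.iter_c hd n c, h0, iter_psi hd hΨ c hg0 n s θ hgs]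
  rw [h1, h2, hGf _ _ ?_ hms htm]
  · congr 2
    · rw [div_eq_iff (hpk (m - n)).ne', mul_right_comm, ← pow_add, show n + (m - n) = m by omega]
    · rw [sub_self, zero_div, add_zero, show m - (m - n) = n by omega]
  · have h3 : (d : ℝ) ^ (m - n) ≤ (d : ℝ) ^ m := pow_le_pow_right₀ (by linarith) (by omega)
    have h4 : s / d * (d : ℝ) ^ (m - n) ≤ s / d * (d : ℝ) ^ m :=
      mul_le_mul_of_nonneg_left h3 (by positivity)
    have h5 := hpk m
    nlinarith

end Pool.Agent.Y891.LC.Br
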