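import Mathlib
import Pool.Agent.Helper202.Univ
import Pool.Agent.Y298.LC.Stm

/-! S_FIX (project LC, helper298): lifting a moving loop to the parameter plane. -/

set_option autoImplicit false

open Set Filter Topology Metric

namespace Pool.Agent.Y891.LC.Fix

open Pool.Agent.Helper202.Univ

theorem contr {T : ℂ → ℂ} {a : ℂ} {δ η : ℝ} (hη : 0 < η) (hδ : 32 * η ≤ δ)
    (hd : DifferentiableOn ℂ T (ball a δ)) (hT : ∀ ζ ∈ ball a δ, ‖T ζ - a‖ ≤ 2 * η) {x y : ℂ}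
    (hx : x ∈ closedBall a (δ / 2)) (hy : y ∈ closedBall a (δ / 2)) :
    ‖T x - T y‖ ≤ 1 / 4 * ‖x - y‖ := by
  have hδ0 : 0 < δ := by linarith
  have hsub : closedBall a (δ / 2) ⊆ ball a δ := closedBall_subset_ball (by linarith)
  refine (convex_closedBall a (δ / 2)).norm_image_sub_le_of_norm_deriv_le (𝕜 := ℂ) (f := T)
    (C := 1 / 4) ?_ ?_ hy hx
  · intro z hz
    exact hd.differentiableAt (isOpen_ball.mem_nhds (hsub hz))
  · intro z hz
    have hs2 : closedBall z (δ / 4) ⊆ ball a δ := by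
      intro w hw
      rw [mem_closedBall] at hw hz
      rw [mem_ball]
      calc dist w a ≤ dist w z + dist z a := dist_triangle _ _ _
        _ < δ := by linarith
    have h1 : DiffContOnCl ℂ (fun w => T w - a) (ball z (δ / 4)) := by
      apply DifferentiableOn.diffContOnCl
      rw [closure_ball z (by positivity)]
      exact (hd.mono hs2).sub (differentiableOn_const a)
    have h2 : ∀ w ∈ sphere z (δ / 4), ‖T w - a‖ ≤ 2 * η :=
      fun w hw => hT w (hs2 (sphere_subset_closedBall hw))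
    have h3 := Complex.norm_deriv_le_of_forall_mem_sphere_norm_le (by positivity) h1 h2
    have h4 : deriv (fun w => T w - a) z = deriv T z := congrFun (deriv_sub_const_fun a) z
    rw [h4] at h3
    refine h3.trans ?_
    rw [div_le_iff₀ (by positivity)]
    linarith

theorem fixpt {T : ℂ → ℂ} {a : ℂ} {δ η : ℝ} (hη : 0 < η) (hδ : 32 * η ≤ δ)
    (hd : DifferentiableOn ℂ T (ball a δ)) (hT : ∀ ζ ∈ ball a δ, ‖T ζ - a‖ ≤ 2 * η) :
    ∃ ζ ∈ closedBall a (2 * η), T ζ = ζ := by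
  have hδ0 : 0 < δ := by linarith
  have hsub : closedBall a (2 * η) ⊆ closedBall a (δ / 2) := closedBall_subset_closedBall
    (by linarith)
  have hsub2 : closedBall a (δ / 2) ⊆ ball a δ := closedBall_subset_ball (by linarith)
  have hm : MapsTo T (closedBall a (2 * η)) (closedBall a (2 * η)) := by
    intro x hx
    rw [mem_closedBall, dist_eq_norm]
    exact hT x (hsub2 (hsub hx))
  have hc : ContractingWith (1 / 4) (hm.restrict T _ _) := by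
    refine ⟨by
      rw [← NNReal.coe_lt_coe]
      push_cast
      norm_num, ?_⟩
    apply LipschitzWith.of_dist_le_mul
    rintro ⟨x, hx⟩ ⟨y, hy⟩
    have h1 := contr hη hδ hd hT (hsub hx) (hsub hy)
    rw [Subtype.dist_eq, Subtype.dist_eq, dist_eq_norm, dist_eq_norm]
    simpa using h1
  obtain ⟨y, hy, hf, -⟩ := hc.exists_fixedPoint' (isClosed_closedBall.isComplete) hm
    (x := a) (mem_closedBall_self (by positivity)) (edist_ne_top _ _)
  exact ⟨y, hy, hf⟩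

theorem fix : Pool.Agent.Y298.LC.S_FIX := by
  intro X G Fm γ c₀ cs zn ρ κ δ η hρ hκ hη hδ hcs hX hXi hXs hG hGm hγc hγd hγη hF hFη
  have hδ0 : 0 < δ := by linarith
  set χ : ℂ → ℂ := Function.invFunOn X (ball c₀ ρ) with hχ
  have hχmem : ∀ w ∈ ball zn κ, χ w ∈ ball c₀ ρ := fun w hw => invFunOn_mem (hXs hw)
  have hχr : ∀ w ∈ ball zn κ, X (χ w) = w := fun w hw => invFunOn_right (hXs hw)
  have hχl : ∀ c ∈ ball c₀ ρ, χ (X c) = c := fun c hc => invFunOn_left hXi hc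
  have hχd : ∀ w ∈ ball zn κ, DifferentiableAt ℂ χ w := fun w hw =>
    differentiableAt_inv isOpen_ball hX hXi (hXs hw)
  set T : ℝ → ℂ → ℂ := fun τ ζ => γ τ (χ (G ζ)) - (Fm (χ (G ζ)) (G ζ) - ζ) with hTdef
  have hTd : ∀ τ ∈ Icc (0 : ℝ) 1, DifferentiableOn ℂ (T τ) (ball (γ τ cs) δ) := by
    intro τ hτ ζ hζ
    have g1 : DifferentiableAt ℂ G ζ := (hG τ hτ).differentiableAt (isOpen_ball.mem_nhds hζ)
    have g2 : DifferentiableAt ℂ (fun ζ => χ (G ζ)) ζ :=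
      DifferentiableAt.comp ζ (hχd _ (hGm τ hτ ζ hζ)) g1
    have g3 : DifferentiableAt ℂ (fun ζ => γ τ (χ (G ζ))) ζ := by
      apply DifferentiableAt.comp (f := fun ζ => χ (G ζ)) (g := γ τ) ζ _ g2
      exact (hγd τ hτ).differentiableAt (isOpen_ball.mem_nhds (hχmem _ (hGm τ hτ ζ hζ)))
    have g4 : DifferentiableAt ℂ (fun ζ => Fm (χ (G ζ)) (G ζ)) ζ := by
      exact DifferentiableAt.comp (f := fun ζ => (χ (G ζ), G ζ))
        (g := fun p : ℂ × ℂ => Fm p.1 p.2) ζ (hF _) (g2.prodMk g1)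
    exact (g3.sub (g4.sub differentiableAt_id)).differentiableWithinAt
  have hTb : ∀ τ ∈ Icc (0 : ℝ) 1, ∀ ζ ∈ ball (γ τ cs) δ, ‖T τ ζ - γ τ cs‖ ≤ 2 * η := by
    intro τ hτ ζ hζ
    have h1 := hγη τ hτ _ (hχmem _ (hGm τ hτ ζ hζ))
    have h2 := hFη τ hτ ζ hζ _ (hχmem _ (hGm τ hτ ζ hζ))
    calc ‖T τ ζ - γ τ cs‖ = ‖(γ τ (χ (G ζ)) - γ τ cs) - (Fm (χ (G ζ)) (G ζ) - ζ)‖ := by
          congr 1
          simp only [hTdef]
          ring
      _ ≤ ‖γ τ (χ (G ζ)) - γ τ cs‖ + ‖Fm (χ (G ζ)) (G ζ) - ζ‖ := norm_sub_le _ _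
      _ ≤ 2 * η := by linarith
  have hcon : ∀ τ ∈ Icc (0 : ℝ) 1, ∀ x ∈ closedBall (γ τ cs) (δ / 2),
      ∀ y ∈ closedBall (γ τ cs) (δ / 2), ‖T τ x - T τ y‖ ≤ 1 / 4 * ‖x - y‖ :=
    fun τ hτ x hx y hy => contr hη hδ (hTd τ hτ) (hTb τ hτ) hx hy
  have hex : ∀ τ : ℝ, ∃ ζ : ℂ, τ ∈ Icc (0 : ℝ) 1 → ζ ∈ closedBall (γ τ cs) (2 * η) ∧
      T τ ζ = ζ := by
    intro τ
    by_cases hτ : τ ∈ Icc (0 : ℝ) 1
    · obtain ⟨ζ, h1, h2⟩ := fixpt hη hδ (hTd τ hτ) (hTb τ hτ)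
      exact ⟨ζ, fun _ => ⟨h1, h2⟩⟩
    · exact ⟨0, fun h => absurd h hτ⟩
  choose Z hZ using hex
  have hsub1 : ∀ τ : ℝ, closedBall (γ τ cs) (2 * η) ⊆ closedBall (γ τ cs) (δ / 2) :=
    fun τ => closedBall_subset_closedBall (by linarith)
  have hsub2 : ∀ τ : ℝ, closedBall (γ τ cs) (δ / 2) ⊆ ball (γ τ cs) δ :=
    fun τ => closedBall_subset_ball (by linarith)
  have huniq : ∀ τ ∈ Icc (0 : ℝ) 1, ∀ ζ ∈ closedBall (γ τ cs) (δ / 2), T τ ζ = ζ → ζ = Z τ := by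
    intro τ hτ ζ hζ he
    obtain ⟨h1, h2⟩ := hZ τ hτ
    have h3 := hcon τ hτ ζ hζ (Z τ) (hsub1 τ h1)
    rw [he, h2] at h3
    have h4 : ‖ζ - Z τ‖ = 0 := by
      have := norm_nonneg (ζ - Z τ)
      linarith
    exact sub_eq_zero.1 (norm_eq_zero.1 h4)
  have hZD : ∀ τ ∈ Icc (0 : ℝ) 1, Z τ ∈ ball (γ τ cs) δ := fun τ hτ =>
    hsub2 τ (hsub1 τ (hZ τ hτ).1)
  have hγt : ∀ c ∈ ball c₀ ρ, ContinuousOn (fun τ => γ τ c) (Icc 0 1) := by
    intro c hc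
    exact hγc.comp (f := fun τ : ℝ => (τ, c)) (by fun_prop) (fun τ hτ => ⟨hτ, hc⟩)
  have hZc : ContinuousOn Z (Icc 0 1) := by
    intro τ' hτ'
    set c' : ℂ := χ (G (Z τ')) with hc'
    have hc'm : c' ∈ ball c₀ ρ := hχmem _ (hGm τ' hτ' _ (hZD τ' hτ'))
    have e1 := hγt cs hcs τ' hτ'
    have e2 := hγt c' hc'm τ' hτ'
    have lim : Tendsto (fun τ => 4 / 3 * ‖γ τ c' - γ τ' c'‖) (𝓝[Icc 0 1] τ') (𝓝 0) := by
      have := ((e2.sub_const (γ τ' c')).norm).const_mul (4 / 3)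
      rw [sub_self, norm_zero, mul_zero] at this
      exact this
    rw [ContinuousWithinAt, tendsto_iff_norm_sub_tendsto_zero]
    refine squeeze_zero' (Eventually.of_forall fun τ => norm_nonneg _) ?_ lim
    have hnear : ∀ᶠ τ in 𝓝[Icc 0 1] τ', ‖γ τ cs - γ τ' cs‖ < η := by
      have := (e1.sub_const (γ τ' cs)).norm
      rw [sub_self, norm_zero] at this
      exact this.eventually (gt_mem_nhds hη)
    filter_upwards [hnear, self_mem_nhdsWithin] with τ hτn hτ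
    obtain ⟨a1, a2⟩ := hZ τ hτ
    obtain ⟨b1, b2⟩ := hZ τ' hτ'
    have hm : Z τ' ∈ closedBall (γ τ cs) (δ / 2) := by
      rw [mem_closedBall, dist_eq_norm] at b1 ⊢
      calc ‖Z τ' - γ τ cs‖ = ‖(Z τ' - γ τ' cs) - (γ τ cs - γ τ' cs)‖ := by congr 1; ring
        _ ≤ ‖Z τ' - γ τ' cs‖ + ‖γ τ cs - γ τ' cs‖ := norm_sub_le _ _
        _ ≤ δ / 2 := by linarith
    have h3 := hcon τ hτ (Z τ) (hsub1 τ a1) (Z τ') hm
    have h4 : T τ (Z τ') - T τ' (Z τ') = γ τ c' - γ τ' c' := by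
      simp only [hTdef, hc']
      ring
    have h5 : ‖Z τ - Z τ'‖ ≤ 1 / 4 * ‖Z τ - Z τ'‖ + ‖γ τ c' - γ τ' c'‖ := by
      calc ‖Z τ - Z τ'‖ = ‖(T τ (Z τ) - T τ (Z τ')) + (T τ (Z τ') - T τ' (Z τ'))‖ := by
            rw [a2, b2]
            congr 1
            ring
        _ ≤ ‖T τ (Z τ) - T τ (Z τ')‖ + ‖T τ (Z τ') - T τ' (Z τ')‖ := norm_add_le _ _
        _ ≤ _ := by rw [h4]; linarith
    linarith
  refine ⟨fun τ => χ (G (Z τ)), ?_, ?_, ?_, ?_⟩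
  · intro τ hτ
    have g1 : ContinuousAt G (Z τ) :=
      ((hG τ hτ).differentiableAt (isOpen_ball.mem_nhds (hZD τ hτ))).continuousAt
    have g2 : ContinuousAt χ (G (Z τ)) := (hχd _ (hGm τ hτ _ (hZD τ hτ))).continuousAt
    have g3 : ContinuousAt (fun ζ => χ (G ζ)) (Z τ) := ContinuousAt.comp g2 g1
    exact ContinuousAt.comp_continuousWithinAt (f := Z) (g := fun ζ => χ (G ζ)) g3 (hZc τ hτ)
  · intro τ hτ
    have m1 := hGm τ hτ _ (hZD τ hτ)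
    refine ⟨hχmem _ m1, ?_⟩
    show Fm (χ (G (Z τ))) (X (χ (G (Z τ)))) = γ τ (χ (G (Z τ)))
    rw [hχr _ m1]
    have h2 := (hZ τ hτ).2
    simp only [hTdef] at h2
    linear_combination (-1 : ℂ) * h2
  · intro h01
    have h0 : (0 : ℝ) ∈ Icc (0 : ℝ) 1 := ⟨le_rfl, zero_le_one⟩
    have h1 : (1 : ℝ) ∈ Icc (0 : ℝ) 1 := ⟨zero_le_one, le_rfl⟩
    have hcseq := h01 cs hcs
    have h2 : Z 0 ∈ closedBall (γ 1 cs) (δ / 2) := by
      rw [← hcseq]
      exact hsub1 0 (hZ 0 h0).1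
    have h3 : T 1 (Z 0) = Z 0 := by
      have h4 := (hZ 0 h0).2
      have h5 := h01 _ (hχmem _ (hGm 0 h0 _ (hZD 0 h0)))
      simp only [hTdef] at h4 ⊢
      rw [← h5]
      exact h4
    have h4 := huniq 1 h1 _ h2 h3
    show χ (G (Z 0)) = χ (G (Z 1))
    rw [h4]
  · intro τ hτ c hc ζ hζ hXG hFX
    have h1 : χ (G ζ) = c := by rw [← hXG]; exact hχl c hc
    have h2 : ζ ∈ closedBall (γ τ cs) (δ / 2) := by
      rw [mem_ball] at hζ
      rw [mem_closedBall]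
      linarith
    have h3 : T τ ζ = ζ := by
      simp only [hTdef]
      rw [h1, ← hXG, hFX]
      ring
    have h4 := huniq τ hτ ζ h2 h3
    show c = χ (G (Z τ))
    rw [← h4, h1]

end Pool.Agent.Y891.LC.Fix
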