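import Mathlib
import Pool.Agent.W746.LD.Koebe
import Pool.Agent.Y298.LC.Stm

/-! S_KOE (project LC, helper298): distortion on a compact connected set. -/

set_option autoImplicit false

open Set Filter Topology Metric

namespace Pool.Agent.Y891.LC.Koe

open Pool.Agent.W746.LD

/-- univalent near `K` -/
def UN (K : Set ℂ) (δ : ℝ) (G : ℂ → ℂ) : Prop :=
  DifferentiableOn ℂ G (thickening δ K) ∧ InjOn G (thickening δ K)

theorem UN.univ {K : Set ℂ} {δ : ℝ} {G : ℂ → ℂ} (h : UN K δ G) {x : ℂ} (hx : x ∈ K) :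
    Univ G x δ := by
  have hs : ball x δ ⊆ thickening δ K := ball_subset_thickening hx δ
  exact ⟨h.1.mono hs, h.2.mono hs⟩

/-- the comparison of two points -/
def Cmp (K : Set ℂ) (δ : ℝ) (x y : ℂ) : Prop := ∃ C : ℝ, 0 < C ∧ ∀ G : ℂ → ℂ, UN K δ G →
  ‖deriv G x‖ ≤ C * ‖deriv G y‖ ∧ ‖G x - G y‖ ≤ C * ‖deriv G y‖

theorem near {C0 c0 : ℝ} (KK : KC C0 c0) {K : Set ℂ} {δ : ℝ} (hδ : 0 < δ) {x y : ℂ} (hx : x ∈ K)
    (hy : y ∈ closedBall x (δ / 4)) {G : ℂ → ℂ} (hG : UN K δ G) :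
    ‖deriv G x‖ ≤ C0 * ‖deriv G y‖ ∧ ‖deriv G y‖ ≤ C0 * ‖deriv G x‖ ∧
      ‖G y - G x‖ ≤ C0 * δ * ‖deriv G x‖ := by
  rw [mem_closedBall, dist_eq_norm] at hy
  have h1 := KK.kdist G x δ hδ (hG.univ hx) y hy
  have h2 := KK.lip hδ (hG.univ hx) hy
  refine ⟨h1.2, h1.1, h2.trans ?_⟩
  have h3 : ‖y - x‖ ≤ δ := by linarith
  have h4 := KK.one_le
  calc C0 * ‖deriv G x‖ * ‖y - x‖ ≤ C0 * ‖deriv G x‖ * δ := by gcongr
    _ = C0 * δ * ‖deriv G x‖ := by ring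

theorem Cmp.trans {K : Set ℂ} {δ : ℝ} {x y z : ℂ} (h1 : Cmp K δ x y) (h2 : Cmp K δ y z) :
    Cmp K δ x z := by
  obtain ⟨C, hC, h⟩ := h1
  obtain ⟨C', hC', h'⟩ := h2
  refine ⟨C * C' + C', by positivity, fun G hG => ?_⟩
  obtain ⟨a1, a2⟩ := h G hG
  obtain ⟨b1, b2⟩ := h' G hG
  have h0 : 0 ≤ ‖deriv G z‖ := norm_nonneg _
  have h3 : C * ‖deriv G y‖ ≤ C * (C' * ‖deriv G z‖) := by gcongr
  constructor
  · nlinarith [mul_nonneg hC'.le h0]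
  · calc ‖G x - G z‖ = ‖(G x - G y) + (G y - G z)‖ := by congr 1; ring
      _ ≤ ‖G x - G y‖ + ‖G y - G z‖ := norm_add_le _ _
      _ ≤ _ := by nlinarith

theorem cmp_all {K : Set ℂ} {δ : ℝ} (hK : IsPreconnected K) (hδ : 0 < δ) {x y : ℂ}
    (hx : x ∈ K) (hy : y ∈ K) : Cmp K δ x y := by
  obtain ⟨C0, c0, KK⟩ := exists_KC
  have hC0 := KK.one_le
  refine hK.induction₂' (Cmp K δ) ?_ (fun x y z _ _ _ h1 h2 => h1.trans h2) hx hy
  intro x hx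
  have : ∀ᶠ y in 𝓝 x, y ∈ closedBall x (δ / 4) :=
    closedBall_mem_nhds x (by positivity)
  filter_upwards [mem_nhdsWithin_of_mem_nhds this, self_mem_nhdsWithin] with y hy hyK
  have hx' : x ∈ closedBall y (δ / 4) := mem_closedBall_comm.1 hy
  constructor
  · refine ⟨C0 + C0 * δ, by positivity, fun G hG => ?_⟩
    have h1 := near KK hδ hyK hx' hG
    have h0 : 0 ≤ ‖deriv G y‖ := norm_nonneg _
    have h00 : 0 ≤ C0 * δ * ‖deriv G y‖ := by positivity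
    have h01 : 0 ≤ C0 * ‖deriv G y‖ := by positivity
    constructor
    · nlinarith [h1.2.1]
    · nlinarith [h1.2.2]
  · refine ⟨C0 + C0 * δ, by positivity, fun G hG => ?_⟩
    have h1 := near KK hδ hx hy hG
    have h0 : 0 ≤ ‖deriv G x‖ := norm_nonneg _
    have h00 : 0 ≤ C0 * δ * ‖deriv G x‖ := by positivity
    have h01 : 0 ≤ C0 * ‖deriv G x‖ := by positivity
    constructor
    · nlinarith [h1.2.1]
    · nlinarith [h1.2.2]

theorem uni {K : Set ℂ} {δ : ℝ} (hKc : IsCompact K) (hK : IsPreconnected K) (hδ : 0 < δ) {y : ℂ}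
    (hy : y ∈ K) : ∃ C : ℝ, 0 < C ∧ ∀ x ∈ K, ∀ G : ℂ → ℂ, UN K δ G →
      ‖deriv G x‖ ≤ C * ‖deriv G y‖ ∧ ‖deriv G y‖ ≤ C * ‖deriv G x‖ ∧
        ‖G x - G y‖ ≤ C * ‖deriv G y‖ := by
  obtain ⟨C0, c0, KK⟩ := exists_KC
  have hC0 := KK.one_le
  refine hKc.induction_on (p := fun s => ∃ C : ℝ, 0 < C ∧ ∀ x ∈ s, ∀ G : ℂ → ℂ, UN K δ G →
      ‖deriv G x‖ ≤ C * ‖deriv G y‖ ∧ ‖deriv G y‖ ≤ C * ‖deriv G x‖ ∧
        ‖G x - G y‖ ≤ C * ‖deriv G y‖) ?_ ?_ ?_ ?_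
  · exact ⟨1, one_pos, fun x hx => absurd hx (notMem_empty x)⟩
  · rintro s t hst ⟨C, hC, h⟩
    exact ⟨C, hC, fun x hx => h x (hst hx)⟩
  · rintro s t ⟨C, hC, h⟩ ⟨C', hC', h'⟩
    refine ⟨C + C', by positivity, fun x hx G hG => ?_⟩
    have n1 : 0 ≤ ‖deriv G x‖ := norm_nonneg _
    have n2 : 0 ≤ ‖deriv G y‖ := norm_nonneg _
    have m1 : 0 ≤ C * ‖deriv G x‖ := by positivity
    have m2 : 0 ≤ C * ‖deriv G y‖ := by positivity
    have m3 : 0 ≤ C' * ‖deriv G x‖ := by positivity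
    have m4 : 0 ≤ C' * ‖deriv G y‖ := by positivity
    rcases hx with hx | hx
    · obtain ⟨a1, a2, a3⟩ := h x hx G hG
      exact ⟨by linarith, by linarith, by linarith⟩
    · obtain ⟨a1, a2, a3⟩ := h' x hx G hG
      exact ⟨by linarith, by linarith, by linarith⟩
  · intro x hx
    obtain ⟨C, hC, h⟩ := cmp_all hK hδ hx hy
    obtain ⟨C', hC', h'⟩ := cmp_all hK hδ hy hx
    refine ⟨closedBall x (δ / 4), mem_nhdsWithin_of_mem_nhds
      (closedBall_mem_nhds x (by positivity)), C0 * C + C0 * C' + (C0 * δ * C + C),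
      by positivity, fun w hw G hG => ?_⟩
    obtain ⟨a1, a2⟩ := h G hG
    obtain ⟨b1, b2⟩ := h' G hG
    obtain ⟨k1, k2, k3⟩ := near KK hδ hx hw hG
    have n1 : 0 ≤ ‖deriv G w‖ := norm_nonneg _
    have n2 : 0 ≤ ‖deriv G y‖ := norm_nonneg _
    have e1 : C0 * ‖deriv G x‖ ≤ C0 * (C * ‖deriv G y‖) := by gcongr
    have e2 : C' * ‖deriv G x‖ ≤ C' * (C0 * ‖deriv G w‖) := by gcongr
    have e3 : C0 * δ * ‖deriv G x‖ ≤ C0 * δ * (C * ‖deriv G y‖) := by gcongr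
    have m1 : 0 ≤ C0 * C * ‖deriv G y‖ := by positivity
    have m2 : 0 ≤ C0 * C' * ‖deriv G y‖ := by positivity
    have m3 : 0 ≤ C0 * δ * C * ‖deriv G y‖ := by positivity
    have m4 : 0 ≤ C * ‖deriv G y‖ := by positivity
    have p1 : 0 ≤ C0 * C * ‖deriv G w‖ := by positivity
    have p2 : 0 ≤ C0 * C' * ‖deriv G w‖ := by positivity
    have p3 : 0 ≤ C0 * δ * C * ‖deriv G w‖ := by positivity
    have p4 : 0 ≤ C * ‖deriv G w‖ := by positivity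
    refine ⟨by nlinarith, by nlinarith, ?_⟩
    calc ‖G w - G y‖ = ‖(G w - G x) + (G x - G y)‖ := by congr 1; ring
      _ ≤ ‖G w - G x‖ + ‖G x - G y‖ := norm_add_le _ _
      _ ≤ _ := by nlinarith

theorem koe : Pool.Agent.Y298.LC.S_KOE := by
  intro K δ hKc hK hδ
  rcases K.eq_empty_or_nonempty with rfl | ⟨y0, hy0⟩
  · exact ⟨1, one_pos, fun G _ _ x hx => absurd hx (notMem_empty x)⟩
  obtain ⟨C, hC, h⟩ := uni hKc hK hδ hy0
  refine ⟨C * C + 2 * C * C, by positivity, fun G hd hi x hx y hy => ?_⟩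
  obtain ⟨a1, a2, a3⟩ := h x hx G ⟨hd, hi⟩
  obtain ⟨b1, b2, b3⟩ := h y hy G ⟨hd, hi⟩
  have n1 : 0 ≤ ‖deriv G y‖ := norm_nonneg _
  have e1 : C * ‖deriv G y0‖ ≤ C * (C * ‖deriv G y‖) := by gcongr
  have m1 : 0 ≤ C * C * ‖deriv G y‖ := by positivity
  constructor
  · nlinarith
  · calc ‖G x - G y‖ = ‖(G x - G y0) - (G y - G y0)‖ := by congr 1; ring
      _ ≤ ‖G x - G y0‖ + ‖G y - G y0‖ := norm_sub_le _ _
      _ ≤ _ := by nlinarith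

end Pool.Agent.Y891.LC.Koe
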